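import Mathlib

/-!
# `1 - (z₁ + z₂)/2` is cyclic in `D_β(𝔻²)` for every `β ≤ 2`

A functional that annihilates the invariant subspace generated by `1 - (z₁ + z₂)/2` is given by
numbers `h (a, b)` with `h (a, b) = (h (a + 1, b) + h (a, b + 1)) / 2`. If `β ≤ 2` then `h` grows at
most linearly, and a random walk estimate shows that its third difference along the diagonals
vanishes. Since constants are not square summable against `(a + b + 2)^(-2)`, descending through the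
differences gives `h = 0`.
-/

set_option autoImplicit false

namespace Pool.Agent.Results.MP_f86430_an.CyclicUpToTwo

open Filter Topology Finset

/-! ### The definitions used in the statement -/

/-- The open bidisk in `ℂ²`. -/
def bidisk : Set (ℂ × ℂ) := {z | ‖z.1‖ < 1 ∧ ‖z.2‖ < 1}

/-- `F` has the power series expansion `∑ a (j, k) z₁^j z₂^k` on the bidisk. -/
def HasExpansion (a : ℕ × ℕ → ℂ) (F : ℂ × ℂ → ℂ) : Prop :=
  ∀ z ∈ bidisk, HasSum (fun J : ℕ × ℕ => a J * (z.1 ^ J.1 * z.2 ^ J.2)) (F z)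

/-- The term `|a_J|² (|J| + 2)^β` of the squared norm. -/
noncomputable def term (β : ℝ) (a : ℕ × ℕ → ℂ) (J : ℕ × ℕ) : ℝ :=
  ‖a J‖ ^ 2 * ((J.1 : ℝ) + J.2 + 2) ^ β

/-- The space `D_β(𝔻²)`. -/
def D (β : ℝ) : Set (ℂ × ℂ → ℂ) := {F | ∃ a, HasExpansion a F ∧ Summable (term β a)}

/-- The value of a polynomial in two variables at a point of `ℂ²`. -/
noncomputable def evalAt (p : MvPolynomial (Fin 2) ℂ) (z : ℂ × ℂ) : ℂ :=
  MvPolynomial.eval ![z.1, z.2] p

/-- `f` is cyclic in `D_β(𝔻²)`: it belongs to the space, and every `F` in the space can be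
approximated in norm by products `p f` with `p` a polynomial. -/
def IsCyclic (β : ℝ) (f : ℂ × ℂ → ℂ) : Prop :=
  f ∈ D β ∧ ∀ F ∈ D β, ∀ ε : ℝ, 0 < ε → ∃ p : MvPolynomial (Fin 2) ℂ, ∃ c : ℕ × ℕ → ℂ,
    HasExpansion c (fun z => F z - evalAt p z * f z) ∧ Summable (term β c) ∧ ∑' J, term β c J < ε

/-- The function `1 - (z₁ + z₂)/2`. -/
noncomputable def f0 (z : ℂ × ℂ) : ℂ := 1 - (z.1 + z.2) / 2

/-! ### Averaging functions on the quadrant -/

/-- `h` is equal to the average of its two forward neighbours. -/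
def Avg (h : ℕ → ℕ → ℂ) : Prop := ∀ a b, h a b = (h (a + 1) b + h a (b + 1)) / 2

/-- The diagonal difference. -/
def Df (h : ℕ → ℕ → ℂ) (a b : ℕ) : ℂ := h (a + 1) b - h a (b + 1)

/-- Square summability with weight `(a + b + 2)^(-2)`. -/
def Wt (h : ℕ → ℕ → ℂ) : Prop :=
  Summable (fun J : ℕ × ℕ => ‖h J.1 J.2‖ ^ 2 / ((J.1 : ℝ) + J.2 + 2) ^ 2)

theorem Avg.df {h : ℕ → ℕ → ℂ} (H : Avg h) : Avg (Df h) := by
  intro a b
  simp only [Df]
  rw [H (a + 1) b, H a (b + 1)]
  ring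

theorem wt_shift {h : ℕ → ℕ → ℂ} (H : Wt h) :
    Summable (fun J : ℕ × ℕ => ‖h (J.1 + 1) J.2‖ ^ 2 / ((J.1 : ℝ) + J.2 + 2) ^ 2) ∧
    Summable (fun J : ℕ × ℕ => ‖h J.1 (J.2 + 1)‖ ^ 2 / ((J.1 : ℝ) + J.2 + 2) ^ 2) := by
  have key : ∀ x y : ℝ, 0 ≤ x → 0 ≤ y → x / (y + 2) ^ 2 ≤ 9 / 4 * (x / (y + 1 + 2) ^ 2) := by
    intro x y hx hy
    rw [mul_div_assoc', div_le_div_iff₀ (by positivity) (by positivity)]
    nlinarith [mul_nonneg hx hy, mul_nonneg hx (mul_nonneg hy hy)]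
  constructor
  · have h1 : Summable (fun J : ℕ × ℕ =>
        ‖h (J.1 + 1) J.2‖ ^ 2 / (((J.1 + 1 : ℕ) : ℝ) + J.2 + 2) ^ 2) :=
      H.comp_injective (i := fun J : ℕ × ℕ => (J.1 + 1, J.2)) (by
        intro x y hxy
        simp only [Prod.mk.injEq, Nat.add_right_cancel_iff] at hxy
        exact Prod.ext hxy.1 hxy.2)
    refine Summable.of_nonneg_of_le (fun J => by positivity) (fun J => ?_) (h1.mul_left (9 / 4))
    have := key (‖h (J.1 + 1) J.2‖ ^ 2) (J.1 + J.2) (by positivity) (by positivity)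
    refine this.trans (le_of_eq ?_)
    push_cast
    ring
  · have h1 : Summable (fun J : ℕ × ℕ =>
        ‖h J.1 (J.2 + 1)‖ ^ 2 / ((J.1 : ℝ) + ((J.2 + 1 : ℕ) : ℝ) + 2) ^ 2) :=
      H.comp_injective (i := fun J : ℕ × ℕ => (J.1, J.2 + 1)) (by
        intro x y hxy
        simp only [Prod.mk.injEq, Nat.add_right_cancel_iff] at hxy
        exact Prod.ext hxy.1 hxy.2)
    refine Summable.of_nonneg_of_le (fun J => by positivity) (fun J => ?_) (h1.mul_left (9 / 4))
    have := key (‖h J.1 (J.2 + 1)‖ ^ 2) (J.1 + J.2) (by positivity) (by positivity)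
    refine this.trans (le_of_eq ?_)
    push_cast
    ring

theorem Wt.df {h : ℕ → ℕ → ℂ} (H : Wt h) : Wt (Df h) := by
  obtain ⟨h1, h2⟩ := wt_shift H
  refine Summable.of_nonneg_of_le (fun J => by positivity) (fun J => ?_)
    ((h1.mul_left 2).add (h2.mul_left 2))
  have h3 : ‖Df h J.1 J.2‖ ^ 2 ≤ 2 * ‖h (J.1 + 1) J.2‖ ^ 2 + 2 * ‖h J.1 (J.2 + 1)‖ ^ 2 := by
    have h4 : ‖Df h J.1 J.2‖ ≤ ‖h (J.1 + 1) J.2‖ + ‖h J.1 (J.2 + 1)‖ := norm_sub_le _ _
    have h5 : ‖Df h J.1 J.2‖ ^ 2 ≤ (‖h (J.1 + 1) J.2‖ + ‖h J.1 (J.2 + 1)‖) ^ 2 :=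
      pow_le_pow_left₀ (norm_nonneg _) h4 2
    nlinarith [sq_nonneg (‖h (J.1 + 1) J.2‖ - ‖h J.1 (J.2 + 1)‖)]
  rw [mul_div_assoc', mul_div_assoc', ← add_div]
  gcongr

/-- Constants are not square summable against the weight. -/
theorem not_summable_weight :
    ¬ Summable (fun J : ℕ × ℕ => 1 / ((J.1 : ℝ) + J.2 + 2) ^ 2) := by
  intro H
  have h1 : Summable (fun a : ℕ => ∑' b : ℕ, 1 / ((a : ℝ) + b + 2) ^ 2) := H.prod
  have h2 : ∀ a : ℕ, 1 / 4 * (1 / ((a : ℝ) + 1)) ≤ ∑' b : ℕ, 1 / ((a : ℝ) + b + 2) ^ 2 := by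
    intro a
    have h3 : Summable (fun b : ℕ => 1 / ((a : ℝ) + b + 2) ^ 2) := H.prod_factor a
    refine le_trans ?_ (h3.sum_le_tsum (range (a + 1)) (fun b _ => by positivity))
    have h4 : ∀ b ∈ range (a + 1), 1 / (2 * ((a : ℝ) + 1)) ^ 2 ≤ 1 / ((a : ℝ) + b + 2) ^ 2 := by
      intro b hb
      have hb' : (b : ℝ) ≤ a := by
        exact_mod_cast Nat.lt_succ_iff.1 (mem_range.1 hb)
      apply one_div_le_one_div_of_le (by positivity)
      apply pow_le_pow_left₀ (by positivity)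
      linarith
    refine le_trans (le_of_eq ?_) (Finset.sum_le_sum h4)
    rw [sum_const, card_range, nsmul_eq_mul]
    push_cast
    field_simp
    norm_num
  have h5 : Summable (fun a : ℕ => 1 / 4 * (1 / ((a : ℝ) + 1))) :=
    Summable.of_nonneg_of_le (fun a => by positivity) h2 h1
  have h6 : Summable (fun a : ℕ => 1 / ((a : ℝ) + 1)) := by
    have := h5.mul_left 4
    refine this.congr fun a => ?_
    ring
  have h7 : Summable (fun a : ℕ => 1 / ((a + 1 : ℕ) : ℝ)) := by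
    refine h6.congr fun a => ?_
    push_cast
    ring
  rw [summable_nat_add_iff (f := fun a : ℕ => 1 / (a : ℝ)) 1] at h7
  exact Real.not_summable_one_div_natCast h7

/-- If the diagonal difference vanishes then so does the function. -/
theorem eq_zero_of_df {h : ℕ → ℕ → ℂ} (H : Avg h) (W : Wt h) (h0 : ∀ a b, Df h a b = 0) :
    ∀ a b, h a b = 0 := by
  have h1 : ∀ a b, h (a + 1) b = h a b := by
    intro a b
    have e1 := H a b
    have e2 := h0 a b
    simp only [Df] at e2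
    have e3 : h a (b + 1) = h (a + 1) b := (sub_eq_zero.1 e2).symm
    rw [e1, e3]; ring
  have h2 : ∀ a b, h a (b + 1) = h a b := by
    intro a b
    have e2 := h0 a b
    simp only [Df] at e2
    rw [← sub_eq_zero.1 e2, h1]
  have h3 : ∀ a b, h a b = h 0 0 := by
    intro a b
    induction a with
    | zero =>
      induction b with
      | zero => rfl
      | succ b ih => rw [h2, ih]
    | succ a ih => rw [h1, ih]
  intro a b
  rw [h3]
  by_contra hc
  apply not_summable_weight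
  have hc' : ‖h 0 0‖ ^ 2 ≠ 0 := by
    have : ‖h 0 0‖ ≠ 0 := norm_ne_zero_iff.2 hc
    positivity
  have W' := W.mul_left ((‖h 0 0‖ ^ 2)⁻¹)
  refine W'.congr fun J => ?_
  rw [h3 J.1 J.2]
  field_simp

/-- Iterated averaging. -/
theorem Avg.iterate {h : ℕ → ℕ → ℂ} (H : Avg h) (n : ℕ) : ∀ a b,
    h a b = (∑ j ∈ range (n + 1), (n.choose j : ℂ) * h (a + j) (b + (n - j))) / 2 ^ n := by
  induction n with
  | zero => intro a b; simp
  | succ n ih =>
    intro a b
    rw [H a b, ih (a + 1) b, ih a (b + 1), ← add_div, div_div, ← pow_succ]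
    congr 1
    rw [Finset.sum_range_succ' _ (n + 1)]
    have e1 : ∑ k ∈ range (n + 1), ((n + 1).choose (k + 1) : ℂ) *
        h (a + (k + 1)) (b + (n + 1 - (k + 1))) =
        ∑ k ∈ range (n + 1), (n.choose k : ℂ) * h (a + 1 + k) (b + (n - k)) +
        ∑ k ∈ range (n + 1), (n.choose (k + 1) : ℂ) * h (a + (k + 1)) (b + (n - k)) := by
      rw [← Finset.sum_add_distrib]
      refine Finset.sum_congr rfl fun k _ => ?_
      rw [Nat.choose_succ_succ, Nat.add_sub_add_right, show a + 1 + k = a + (k + 1) by ring]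
      push_cast
      ring
    rw [e1, add_assoc]
    congr 1
    rw [Finset.sum_range_succ (fun k => (n.choose (k + 1) : ℂ) * h (a + (k + 1)) (b + (n - k))) n,
      Nat.choose_succ_self]
    rw [Finset.sum_range_succ' (fun j => (n.choose j : ℂ) * h (a + j) (b + 1 + (n - j))) n]
    simp only [Nat.cast_zero, zero_mul, add_zero, Nat.choose_zero_right, Nat.cast_one, one_mul,
      Nat.sub_zero]
    congr 1
    · refine Finset.sum_congr rfl fun k hk => ?_
      have hk' : k < n := mem_range.1 hk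
      rw [show b + 1 + (n - (k + 1)) = b + (n - k) by omega]
    · rw [show b + 1 + n = b + (n + 1) by ring]

/-- The total variation of the binomial coefficients. -/
theorem sum_abs_choose (m : ℕ) :
    ∑ i ∈ range (2 * m + 2), |(((if i = 0 then 0 else (2 * m).choose (i - 1) : ℕ) : ℝ)) -
      ((2 * m).choose i : ℝ)| = 2 * ((2 * m).choose m : ℝ) := by
  rw [show 2 * m + 2 = (m + 1) + (m + 1) by ring, Finset.sum_range_add]
  have h1 : ∑ i ∈ range (m + 1), |(((if i = 0 then 0 else (2 * m).choose (i - 1) : ℕ) : ℝ)) -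
      ((2 * m).choose i : ℝ)| = ((2 * m).choose m : ℝ) := by
    have h2 : ∀ k, k ≤ m → ∑ i ∈ range (k + 1),
        |(((if i = 0 then 0 else (2 * m).choose (i - 1) : ℕ) : ℝ)) -
          ((2 * m).choose i : ℝ)| = ((2 * m).choose k : ℝ) := by
      intro k
      induction k with
      | zero => intro _; simp
      | succ k ih =>
        intro hk
        rw [Finset.sum_range_succ, ih (by omega)]
        simp only [Nat.add_eq_zero_iff, one_ne_zero, and_false, if_false, Nat.add_sub_cancel]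
        have h3 : (2 * m).choose k ≤ (2 * m).choose (k + 1) :=
          Nat.choose_le_succ_of_lt_half_left (by omega)
        have h4 : ((2 * m).choose k : ℝ) ≤ ((2 * m).choose (k + 1) : ℝ) := by exact_mod_cast h3
        rw [abs_of_nonpos (by linarith)]
        ring
    exact h2 m le_rfl
  have h5 : ∑ x ∈ range (m + 1), |(((if m + 1 + x = 0 then 0 else
      (2 * m).choose (m + 1 + x - 1) : ℕ) : ℝ)) - ((2 * m).choose (m + 1 + x) : ℝ)| =
      ((2 * m).choose m : ℝ) := by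
    have h6 : ∀ x, |(((if m + 1 + x = 0 then 0 else
        (2 * m).choose (m + 1 + x - 1) : ℕ) : ℝ)) - ((2 * m).choose (m + 1 + x) : ℝ)| =
        ((2 * m).choose (m + x) : ℝ) - ((2 * m).choose (m + (x + 1)) : ℝ) := by
      intro x
      rw [if_neg (by omega), show m + 1 + x - 1 = m + x by omega,
        show m + 1 + x = m + (x + 1) by ring]
      have h7 : (2 * m).choose (m + (x + 1)) ≤ (2 * m).choose (m + x) := by
        by_cases hx : m + (x + 1) ≤ 2 * m
        · rw [← Nat.choose_symm hx, ← Nat.choose_symm (show m + x ≤ 2 * m by omega)]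
          have : 2 * m - (m + x) = 2 * m - (m + (x + 1)) + 1 := by omega
          rw [this]
          exact Nat.choose_le_succ_of_lt_half_left (by omega)
        · rw [Nat.choose_eq_zero_of_lt (by omega)]
          exact Nat.zero_le _
      have h8 : ((2 * m).choose (m + (x + 1)) : ℝ) ≤ ((2 * m).choose (m + x) : ℝ) := by
        exact_mod_cast h7
      exact abs_of_nonneg (by linarith)
    rw [Finset.sum_congr rfl fun x _ => h6 x,
      Finset.sum_range_sub' (fun x => ((2 * m).choose (m + x) : ℝ)) (m + 1)]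
    rw [add_zero, Nat.choose_eq_zero_of_lt (show 2 * m < m + (m + 1) by omega)]
    simp
  rw [h1, h5]
  ring

/-- The upper bound for the central binomial coefficient. -/
theorem central_le (m : ℕ) : ((2 * m).choose m : ℝ) ^ 2 * (2 * m + 1) ≤ 16 ^ m := by
  induction m with
  | zero => simp
  | succ m ih =>
    have h1 := Nat.succ_mul_centralBinom_succ m
    simp only [Nat.centralBinom_eq_two_mul_choose] at h1
    have h2 : ((m : ℝ) + 1) * ((2 * (m + 1)).choose (m + 1) : ℝ) =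
        2 * (2 * m + 1) * ((2 * m).choose m : ℝ) := by exact_mod_cast h1
    set x : ℝ := ((2 * (m + 1)).choose (m + 1) : ℝ)
    set y : ℝ := ((2 * m).choose m : ℝ)
    have hm : (0 : ℝ) ≤ m := Nat.cast_nonneg m
    have h3 : ((m : ℝ) + 1) ^ 2 * (x ^ 2 * (2 * (m + 1) + 1)) =
        (4 * (2 * m + 1) * (2 * m + 3)) * (y ^ 2 * (2 * m + 1)) := by
      calc ((m : ℝ) + 1) ^ 2 * (x ^ 2 * (2 * (m + 1) + 1))
          = (((m : ℝ) + 1) * x) ^ 2 * (2 * (m + 1) + 1) := by ring
        _ = (4 * (2 * m + 1) * (2 * m + 3)) * (y ^ 2 * (2 * m + 1)) := by rw [h2]; ring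
    have h4 : (4 * (2 * (m : ℝ) + 1) * (2 * m + 3)) * (y ^ 2 * (2 * m + 1)) ≤
        (16 * ((m : ℝ) + 1) ^ 2) * 16 ^ m := by
      apply mul_le_mul _ ih (by positivity) (by positivity)
      nlinarith
    have h5 : ((m : ℝ) + 1) ^ 2 * (x ^ 2 * (2 * (m + 1) + 1)) ≤ ((m : ℝ) + 1) ^ 2 * 16 ^ (m + 1) := by
      rw [h3]
      refine h4.trans (le_of_eq ?_)
      ring
    have h6 := le_of_mul_le_mul_left h5 (by positivity)
    push_cast
    exact h6

/-- The factor gained by one diagonal difference and `2 m` averages. -/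
noncomputable def eps (m : ℕ) : ℝ := 2 * ((2 * m).choose m : ℝ) / 4 ^ m

theorem eps_nonneg (m : ℕ) : 0 ≤ eps m := by unfold eps; positivity

theorem eps_sq_le (m : ℕ) : eps m ^ 2 ≤ 4 / (2 * m + 1) := by
  unfold eps
  rw [div_pow, div_le_div_iff₀ (by positivity) (by positivity), mul_pow]
  have h := central_le m
  have h2 : ((4 : ℝ) ^ m) ^ 2 = 16 ^ m := by
    rw [← pow_mul, mul_comm, pow_mul]; norm_num
  rw [h2]
  nlinarith

/-- The basic estimate. -/
theorem Avg.norm_df_le {h : ℕ → ℕ → ℂ} (H : Avg h) (m a b : ℕ) (S : ℝ)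
    (hS : ∀ x y, x + y = a + b + 2 * m + 1 → ‖h x y‖ ≤ S) : ‖Df h a b‖ ≤ eps m * S := by
  have e1 : Df h a b = (∑ i ∈ range (2 * m + 2),
      ((((if i = 0 then 0 else (2 * m).choose (i - 1) : ℕ) : ℝ) - ((2 * m).choose i : ℝ) : ℝ) : ℂ) *
        h (a + i) (b + (2 * m + 1 - i))) / 2 ^ (2 * m) := by
    have h1 := H.iterate (2 * m) (a + 1) b
    have h2 := H.iterate (2 * m) a (b + 1)
    rw [Df, h1, h2, ← sub_div]
    congr 1
    have e2 : ∑ i ∈ range (2 * m + 2),
        ((((if i = 0 then 0 else (2 * m).choose (i - 1) : ℕ) : ℝ) - ((2 * m).choose i : ℝ) : ℝ) : ℂ)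
          * h (a + i) (b + (2 * m + 1 - i)) =
        ∑ i ∈ range (2 * m + 2), (((if i = 0 then 0 else (2 * m).choose (i - 1) : ℕ) : ℂ)) *
          h (a + i) (b + (2 * m + 1 - i)) -
        ∑ i ∈ range (2 * m + 2), ((2 * m).choose i : ℂ) * h (a + i) (b + (2 * m + 1 - i)) := by
      rw [← Finset.sum_sub_distrib]
      refine Finset.sum_congr rfl fun i _ => ?_
      split_ifs
      · push_cast
        ring
      · push_cast
        ring
    rw [e2]
    congr 1
    · rw [Finset.sum_range_succ' _ (2 * m + 1)]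
      simp only [if_true, Nat.cast_zero, zero_mul, add_zero, Nat.add_eq_zero_iff, one_ne_zero,
        and_false, if_false, Nat.add_sub_cancel]
      refine Finset.sum_congr rfl fun i _ => ?_
      rw [show a + 1 + i = a + (i + 1) by ring, Nat.add_sub_add_right]
    · rw [Finset.sum_range_succ _ (2 * m + 1),
        Nat.choose_eq_zero_of_lt (show 2 * m < 2 * m + 1 by omega)]
      simp only [Nat.cast_zero, zero_mul, add_zero]
      refine Finset.sum_congr rfl fun i hi => ?_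
      have hi' : i < 2 * m + 1 := mem_range.1 hi
      rw [show b + 1 + (2 * m - i) = b + (2 * m + 1 - i) by omega]
  have hS0 : 0 ≤ S := (norm_nonneg _).trans (hS (a + b + 2 * m + 1) 0 (by ring))
  rw [e1, norm_div, norm_pow]
  have e3 : ‖(2 : ℂ)‖ ^ (2 * m) = 4 ^ m := by
    rw [Complex.norm_ofNat, pow_mul]; norm_num
  rw [e3, div_le_iff₀ (by positivity)]
  refine (norm_sum_le _ _).trans ?_
  have e4 : ∀ i ∈ range (2 * m + 2),
      ‖((((if i = 0 then 0 else (2 * m).choose (i - 1) : ℕ) : ℝ) - ((2 * m).choose i : ℝ) : ℝ) : ℂ) *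
        h (a + i) (b + (2 * m + 1 - i))‖ ≤
      |(((if i = 0 then 0 else (2 * m).choose (i - 1) : ℕ) : ℝ)) - ((2 * m).choose i : ℝ)| * S := by
    intro i hi
    have hi' : i < 2 * m + 2 := mem_range.1 hi
    rw [norm_mul, Complex.norm_real, Real.norm_eq_abs]
    exact mul_le_mul_of_nonneg_left (hS _ _ (by omega)) (abs_nonneg _)
  refine (Finset.sum_le_sum e4).trans ?_
  rw [← Finset.sum_mul, sum_abs_choose]
  unfold eps
  rw [div_mul_eq_mul_div, div_mul_cancel₀ _ (by positivity)]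

/-- The third diagonal difference of an averaging function of at most linear growth vanishes. -/
theorem third_difference {h : ℕ → ℕ → ℂ} (H : Avg h) (C : ℝ)
    (hC : ∀ a b, ‖h a b‖ ≤ C * (a + b + 2)) : ∀ a b, Df (Df (Df h)) a b = 0 := by
  intro a b
  have hC0 : 0 ≤ C := by
    have := (norm_nonneg _).trans (hC 0 0)
    norm_num at this
    exact this
  have key : ∀ m : ℕ, ‖Df (Df (Df h)) a b‖ ≤
      eps m * (eps m * (eps m * (C * (a + b + 6 * m + 5)))) := by
    intro m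
    refine H.df.df.norm_df_le m a b _ fun x y hxy => ?_
    refine H.df.norm_df_le m x y _ fun x' y' hxy' => ?_
    refine H.norm_df_le m x' y' _ fun x'' y'' hxy'' => ?_
    refine (hC x'' y'').trans (le_of_eq ?_)
    have : (x'' : ℝ) + y'' = a + b + 6 * m + 3 := by
      have : x'' + y'' = a + b + 6 * m + 3 := by omega
      exact_mod_cast this
    rw [this]
    ring
  have key2 : ∀ m : ℕ, ‖Df (Df (Df h)) a b‖ ^ 2 ≤
      64 * (C * (a + b + 6 * m + 5)) ^ 2 / (2 * m + 1) ^ 3 := by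
    intro m
    have h1 := pow_le_pow_left₀ (norm_nonneg _) (key m) 2
    have h2 : (eps m * (eps m * (eps m * (C * (a + b + 6 * m + 5))))) ^ 2 =
        (eps m ^ 2) ^ 3 * (C * (a + b + 6 * m + 5)) ^ 2 := by ring
    rw [h2] at h1
    refine h1.trans ?_
    have h3 : (eps m ^ 2) ^ 3 ≤ (4 / (2 * m + 1)) ^ 3 :=
      pow_le_pow_left₀ (by positivity) (eps_sq_le m) 3
    refine (mul_le_mul_of_nonneg_right h3 (by positivity)).trans (le_of_eq ?_)
    rw [div_pow]
    ring
  have key3 : ∀ m : ℕ, ‖Df (Df (Df h)) a b‖ ^ 2 ≤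
      (64 * C ^ 2 * (a + b + 5) ^ 2 * 36) * (1 / ((m : ℝ) + 1)) := by
    intro m
    refine (key2 m).trans ?_
    rw [mul_one_div, div_le_div_iff₀ (by positivity) (by positivity)]
    have hm : (0 : ℝ) ≤ m := Nat.cast_nonneg m
    have ha : (0 : ℝ) ≤ a := Nat.cast_nonneg a
    have hb : (0 : ℝ) ≤ b := Nat.cast_nonneg b
    have h4 : ((a : ℝ) + b + 6 * m + 5) ≤ (a + b + 5) * (6 * (2 * m + 1)) := by nlinarith
    have h5 : ((a : ℝ) + b + 6 * m + 5) ^ 2 ≤ ((a + b + 5) * (6 * (2 * m + 1))) ^ 2 :=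
      pow_le_pow_left₀ (by positivity) h4 2
    calc 64 * (C * ((a : ℝ) + b + 6 * m + 5)) ^ 2 * (m + 1)
        = 64 * C ^ 2 * (m + 1) * ((a : ℝ) + b + 6 * m + 5) ^ 2 := by ring
      _ ≤ 64 * C ^ 2 * (m + 1) * ((a + b + 5) * (6 * (2 * m + 1))) ^ 2 := by gcongr
      _ ≤ 64 * C ^ 2 * (2 * m + 1) * ((a + b + 5) * (6 * (2 * m + 1))) ^ 2 := by
          gcongr
          linarith
      _ = 64 * C ^ 2 * (a + b + 5) ^ 2 * 36 * (2 * m + 1) ^ 3 := by ring
  have h6 : Tendsto (fun m : ℕ => (64 * C ^ 2 * ((a : ℝ) + b + 5) ^ 2 * 36) * (1 / ((m : ℝ) + 1)))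
      atTop (𝓝 ((64 * C ^ 2 * ((a : ℝ) + b + 5) ^ 2 * 36) * 0)) :=
    tendsto_one_div_add_atTop_nhds_zero_nat.const_mul _
  rw [mul_zero] at h6
  have h7 : ‖Df (Df (Df h)) a b‖ ^ 2 ≤ 0 := ge_of_tendsto' h6 key3
  have h8 : ‖Df (Df (Df h)) a b‖ = 0 := by
    have := norm_nonneg (Df (Df (Df h)) a b)
    nlinarith
  exact norm_eq_zero.1 h8

/-- The annihilator is trivial. -/
theorem eq_zero {h : ℕ → ℕ → ℂ} (H : Avg h) (W : Wt h) : ∀ a b, h a b = 0 := by
  obtain ⟨C, hC⟩ : ∃ C : ℝ, ∀ a b : ℕ, ‖h a b‖ ≤ C * (a + b + 2) := by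
    refine ⟨√(∑' J : ℕ × ℕ, ‖h J.1 J.2‖ ^ 2 / ((J.1 : ℝ) + J.2 + 2) ^ 2), fun a b => ?_⟩
    have h1 : ‖h a b‖ ^ 2 / ((a : ℝ) + b + 2) ^ 2 ≤
        ∑' J : ℕ × ℕ, ‖h J.1 J.2‖ ^ 2 / ((J.1 : ℝ) + J.2 + 2) ^ 2 :=
      W.le_tsum (a, b) fun J _ => by positivity
    have h2 := Real.sqrt_le_sqrt h1
    rw [← div_pow, Real.sqrt_sq (by positivity), div_le_iff₀ (by positivity)] at h2
    exact h2
  have h3 := third_difference H C hC
  have h2 := eq_zero_of_df H.df.df W.df.df h3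
  have h1 := eq_zero_of_df H.df W.df h2
  exact eq_zero_of_df H W h1

/-! ### The Hilbert space argument -/

/-- The weight. -/
noncomputable def w (β : ℝ) (J : ℕ × ℕ) : ℝ := ((J.1 : ℝ) + J.2 + 2) ^ β

theorem w_pos (β : ℝ) (J : ℕ × ℕ) : 0 < w β J := Real.rpow_pos_of_pos (by positivity) _

/-- The vector of `ℓ²` that corresponds to the monomial `z^J`. -/
noncomputable def e (β : ℝ) (J : ℕ × ℕ) : lp (fun _ : ℕ × ℕ => ℂ) 2 :=
  lp.single 2 J ((√(w β J) : ℝ) : ℂ)

theorem e_apply (β : ℝ) (J K : ℕ × ℕ) :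
    (e β J : ℕ × ℕ → ℂ) K = ((√(w β K) : ℝ) : ℂ) * (Pi.single J (1 : ℂ) : ℕ × ℕ → ℂ) K := by
  rw [e, lp.single_apply]
  by_cases h : K = J
  · subst h; simp
  · simp [h]

/-- The vector that corresponds to `z^J (1 - (z₁ + z₂)/2)`. -/
noncomputable def v (β : ℝ) (J : ℕ × ℕ) : lp (fun _ : ℕ × ℕ => ℂ) 2 :=
  e β J - ((1 : ℂ) / 2) • (e β (J.1 + 1, J.2) + e β (J.1, J.2 + 1))

theorem inner_e (β : ℝ) (J : ℕ × ℕ) (x : lp (fun _ : ℕ × ℕ => ℂ) 2) :
    inner ℂ (e β J) x = ((√(w β J) : ℝ) : ℂ) * x J := by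
  rw [e, lp.inner_single_left]
  simp [inner, mul_comm]

/-- The span of the vectors `v β J` is dense. -/
theorem orthogonal_eq_bot {β : ℝ} (hβ : β ≤ 2) :
    (Submodule.span ℂ (Set.range (v β)))ᗮ = ⊥ := by
  rw [Submodule.eq_bot_iff]
  intro x hx
  have h1 : ∀ J, inner ℂ (v β J) x = 0 := fun J =>
    (Submodule.mem_orthogonal _ _).1 hx _ (Submodule.subset_span ⟨J, rfl⟩)
  set h : ℕ → ℕ → ℂ := fun a b => ((√(w β (a, b)) : ℝ) : ℂ) * x (a, b) with hh
  have H : Avg h := by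
    intro a b
    have h2 := h1 (a, b)
    rw [v, inner_sub_left, inner_smul_left, inner_add_left, inner_e, inner_e, inner_e] at h2
    have h3 : (starRingEnd ℂ) (1 / 2 : ℂ) = 1 / 2 := by
      rw [map_div₀, map_one, map_ofNat]
    rw [h3] at h2
    simp only [hh]
    linear_combination h2
  have hsq : Summable fun J : ℕ × ℕ => ‖x J‖ ^ 2 := by
    have := (lp.memℓp x).summable (by norm_num)
    simpa using this
  have W : Wt h := by
    refine Summable.of_nonneg_of_le (fun J => by positivity) (fun J => ?_) hsq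
    have h4 : ‖h J.1 J.2‖ ^ 2 = w β J * ‖x J‖ ^ 2 := by
      simp only [hh]
      rw [norm_mul, Complex.norm_real, Real.norm_of_nonneg (Real.sqrt_nonneg _), mul_pow,
        Real.sq_sqrt (w_pos β _).le]
    rw [h4]
    have h5 : w β J ≤ ((J.1 : ℝ) + J.2 + 2) ^ 2 := by
      have h6 : w β J ≤ ((J.1 : ℝ) + J.2 + 2) ^ (2 : ℝ) :=
        Real.rpow_le_rpow_of_exponent_le (by
          have h7 : (0 : ℝ) ≤ J.1 := Nat.cast_nonneg _
          have h8 : (0 : ℝ) ≤ J.2 := Nat.cast_nonneg _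
          linarith) hβ
      simpa using h6
    rw [div_le_iff₀ (by positivity), mul_comm]
    gcongr
  have h0 := eq_zero H W
  ext J
  have h9 := h0 J.1 J.2
  simp only [hh] at h9
  rcases mul_eq_zero.1 h9 with h10 | h10
  · exfalso
    have : √(w β (J.1, J.2)) = 0 := by exact_mod_cast h10
    exact (Real.sqrt_pos.2 (w_pos β _)).ne' this
  · simpa using h10

theorem dense_span {β : ℝ} (hβ : β ≤ 2) :
    (Submodule.span ℂ (Set.range (v β))).topologicalClosure = ⊤ :=
  (Submodule.topologicalClosure_eq_top_iff).2 (orthogonal_eq_bot hβ)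

theorem hasExpansion_single (J : ℕ × ℕ) :
    HasExpansion (Pi.single J (1 : ℂ)) (fun z => z.1 ^ J.1 * z.2 ^ J.2) := by
  intro z _
  have h : HasSum (fun K : ℕ × ℕ => (Pi.single J (1 : ℂ) : ℕ × ℕ → ℂ) K * (z.1 ^ K.1 * z.2 ^ K.2))
      ((Pi.single J (1 : ℂ) : ℕ × ℕ → ℂ) J * (z.1 ^ J.1 * z.2 ^ J.2)) := by
    refine hasSum_single J fun K hK => ?_
    rw [Pi.single_eq_of_ne hK, zero_mul]
  rw [Pi.single_eq_same, one_mul] at h
  exact h

theorem HasExpansion.add {a b : ℕ × ℕ → ℂ} {F G : ℂ × ℂ → ℂ} (ha : HasExpansion a F)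
    (hb : HasExpansion b G) : HasExpansion (a + b) (fun z => F z + G z) := by
  intro z hz
  refine ((ha z hz).add (hb z hz)).congr_fun ?_ |> id
  intro J
  simp only [Pi.add_apply]
  ring

theorem HasExpansion.sub {a b : ℕ × ℕ → ℂ} {F G : ℂ × ℂ → ℂ} (ha : HasExpansion a F)
    (hb : HasExpansion b G) : HasExpansion (a - b) (fun z => F z - G z) := by
  intro z hz
  have := (ha z hz).sub (hb z hz)
  refine this.congr_fun ?_ |> id
  intro J
  simp only [Pi.sub_apply]
  ring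

theorem HasExpansion.smul {a : ℕ × ℕ → ℂ} {F : ℂ × ℂ → ℂ} (c : ℂ) (ha : HasExpansion a F) :
    HasExpansion (c • a) (fun z => c * F z) := by
  intro z hz
  have := (ha z hz).mul_left c
  refine this.congr_fun ?_ |> id
  intro J
  simp only [Pi.smul_apply, smul_eq_mul]
  ring

/-- Elements of the span come from polynomial multiples of `f0`. -/
theorem span_rep (β : ℝ) (y : lp (fun _ : ℕ × ℕ => ℂ) 2)
    (hy : y ∈ Submodule.span ℂ (Set.range (v β))) :
    ∃ p : MvPolynomial (Fin 2) ℂ, ∃ b : ℕ × ℕ → ℂ,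
      (∀ J, (y : ℕ × ℕ → ℂ) J = ((√(w β J) : ℝ) : ℂ) * b J) ∧
      HasExpansion b (fun z => evalAt p z * f0 z) := by
  induction hy using Submodule.span_induction with
  | mem x hx =>
    obtain ⟨J, rfl⟩ := hx
    refine ⟨MvPolynomial.X 0 ^ J.1 * MvPolynomial.X 1 ^ J.2,
      Pi.single J (1 : ℂ) - ((1 : ℂ) / 2) •
        (Pi.single (J.1 + 1, J.2) (1 : ℂ) + Pi.single (J.1, J.2 + 1) (1 : ℂ)), fun K => ?_, ?_⟩
    · simp only [v, lp.coeFn_sub, lp.coeFn_smul, lp.coeFn_add, Pi.sub_apply, Pi.smul_apply,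
        Pi.add_apply, e_apply, smul_eq_mul]
      ring
    · have h1 := (hasExpansion_single J).sub
        (((hasExpansion_single (J.1 + 1, J.2)).add
          (hasExpansion_single (J.1, J.2 + 1))).smul ((1 : ℂ) / 2))
      intro z hz
      have h2 := h1 z hz
      convert h2 using 1
      simp only [evalAt, f0, map_mul, map_pow, MvPolynomial.eval_X, Matrix.cons_val_zero,
        Matrix.cons_val_one]
      ring
  | zero =>
    refine ⟨0, 0, fun J => by simp, fun z _ => ?_⟩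
    simp [evalAt]
  | add x y _ _ hx hy =>
    obtain ⟨p, b, h1, h2⟩ := hx
    obtain ⟨q, c, h3, h4⟩ := hy
    refine ⟨p + q, b + c, fun J => ?_, fun z hz => ?_⟩
    · rw [lp.coeFn_add, Pi.add_apply, h1, h3, Pi.add_apply]
      ring
    · have h5 := (h2.add h4) z hz
      convert h5 using 1
      simp only [evalAt, map_add]
      ring
  | smul r x _ hx =>
    obtain ⟨p, b, h1, h2⟩ := hx
    refine ⟨MvPolynomial.C r * p, r • b, fun J => ?_, fun z hz => ?_⟩
    · rw [lp.coeFn_smul, Pi.smul_apply, h1, Pi.smul_apply, smul_eq_mul, smul_eq_mul]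
      ring
    · have h5 := (h2.smul r) z hz
      convert h5 using 1
      simp only [evalAt, map_mul, MvPolynomial.eval_C]
      ring

theorem norm_sqrt_mul_sq (β : ℝ) (a : ℕ × ℕ → ℂ) (J : ℕ × ℕ) :
    ‖((√(w β J) : ℝ) : ℂ) * a J‖ ^ 2 = term β a J := by
  rw [norm_mul, Complex.norm_real, Real.norm_of_nonneg (Real.sqrt_nonneg _), mul_pow,
    Real.sq_sqrt (w_pos β _).le, term, w]
  ring

theorem f0_mem_D (β : ℝ) : f0 ∈ D β := by
  have h3 := (hasExpansion_single (0, 0)).sub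
        (((hasExpansion_single (1, 0)).add (hasExpansion_single (0, 1))).smul ((1 : ℂ) / 2))
  refine ⟨Pi.single (0, 0) (1 : ℂ) - ((1 : ℂ) / 2) •
        (Pi.single (1, 0) (1 : ℂ) + Pi.single (0, 1) (1 : ℂ)), fun z hz => ?_, ?_⟩
  · have h4 := h3 z hz
    convert h4 using 1
    simp only [f0, pow_zero, pow_one, mul_one, one_mul]
    ring
  · apply summable_of_finite_support
    refine Set.Finite.subset (Set.toFinite {(0, 0), (1, 0), (0, 1)}) fun J hJ => ?_
    by_contra h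
    simp only [Set.mem_insert_iff, Set.mem_singleton_iff, not_or] at h
    apply hJ
    simp [term, Pi.single_eq_of_ne h.1, Pi.single_eq_of_ne h.2.1, Pi.single_eq_of_ne h.2.2]

theorem result : ∀ β : ℝ, β ≤ 2 → IsCyclic β f0 := by
  intro β hβ
  refine ⟨f0_mem_D β, ?_⟩
  rintro F ⟨a, hF, ha⟩ ε hε
  have hmem : Memℓp (fun J => ((√(w β J) : ℝ) : ℂ) * a J) 2 := by
    rw [memℓp_gen_iff (by norm_num)]
    refine ha.congr fun J => ?_
    rw [← norm_sqrt_mul_sq]
    norm_num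
  set x : lp (fun _ : ℕ × ℕ => ℂ) 2 := ⟨_, hmem⟩ with hx
  have hx1 : x ∈ (Submodule.span ℂ (Set.range (v β))).topologicalClosure := by
    rw [dense_span hβ]; trivial
  obtain ⟨y, hy, hxy⟩ := Metric.mem_closure_iff.1 hx1 (√ε) (Real.sqrt_pos.2 hε)
  obtain ⟨p, b, h1, h2⟩ := span_rep β y hy
  have h3 : ∀ J, ‖(x - y : lp (fun _ : ℕ × ℕ => ℂ) 2) J‖ ^ 2 = term β (a - b) J := by
    intro J
    rw [← norm_sqrt_mul_sq, lp.coeFn_sub, Pi.sub_apply, h1, Pi.sub_apply, mul_sub]
  have h4 : HasSum (fun J => ‖(x - y : lp (fun _ : ℕ × ℕ => ℂ) 2) J‖ ^ 2) (‖x - y‖ ^ 2) := by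
    have := lp.hasSum_norm (p := 2) (by norm_num) (x - y)
    simpa using this
  simp only [h3] at h4
  refine ⟨p, a - b, hF.sub h2, h4.summable, ?_⟩
  rw [h4.tsum_eq]
  rw [dist_eq_norm] at hxy
  have h5 := pow_lt_pow_left₀ hxy (norm_nonneg _) (two_ne_zero)
  rwa [Real.sq_sqrt hε.le] at h5

end Pool.Agent.Results.MP_f86430_an.CyclicUpToTwo
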